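import Mathlib
import Pool.Agent.Lib.MP_d2370c_gt.SharpA
import Pool.Agent.Lib.MP_d2370c_gt.FinalE

/-!
Affine images of crosspolytopes, symmetric polytopes with few vertices, affine images of polars of
`r` convex unconditional bodies, and all convex bodies between the image of the proportional ball
of a `p` norm and the corresponding polytope: the lattice width of such a lattice-free convex body
is at most linear in the number of generators, for `p = 2` with the sharp constant one.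
-/

set_option autoImplicit false

namespace Pool.Agent.Results.MP_d2370c_gt.CrosspolytopeClass

open Pool.Agent.Lib.MP_d2370c_gt (SolidConvex img pol)

/-- No integer point lies in the interior of `K`. -/
def LatticeFree {d : ℕ} (K : Set (Fin d → ℝ)) : Prop :=
  ∀ z : Fin d → ℤ, (fun i => (z i : ℝ)) ∉ interior K

/-- Some nonzero integer direction has width at most `W`: the lattice width is at most `W`. -/
def WidthLe {d : ℕ} (K : Set (Fin d → ℝ)) (W : ℝ) : Prop :=
  ∃ y : Fin d → ℤ, y ≠ 0 ∧ ∀ x ∈ K, ∀ x' ∈ K, ∑ i, (x i - x' i) * (y i : ℝ) ≤ W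

/-- The convex hull of the points `x₀ + w j` and `x₀ - w j`. -/
def SymPoly {d N : ℕ} (x₀ : Fin d → ℝ) (w : Fin N → Fin d → ℝ) : Set (Fin d → ℝ) :=
  convexHull ℝ (Set.range (fun j => x₀ + w j) ∪ Set.range (fun j => x₀ - w j))

/-- The translate by `x₀` of the image of the unit ball of the `p` norm under the linear map with
columns `w j`. -/
def PBall {d : ℕ} (p : ℝ) (x₀ : Fin d → ℝ) (w : Fin d → Fin d → ℝ) : Set (Fin d → ℝ) :=
  {x | ∃ t : Fin d → ℝ, ∑ j, |t j| ^ p ≤ 1 ∧ x = x₀ + ∑ j, t j • w j}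

/-- The bound `(p + 2) M N`, and `M N` for `p = 2`, for convex bodies `K` with
`x₀ + N^(1/p) V(B_p) ⊆ K ⊆ x₀ + M N V(B₁)`, where `V` is the linear map with columns
`v 1, ..., v N`; the bound `N` for symmetric polytopes with at most `2 N` vertices; the bound `d`
for images of unit balls of `p` norms, `1 ≤ p ≤ 2`; the bound `(r / (r - 1) + 2) N`, and `N` for
`r = 2`, for images of polars of `r` convex unconditional bodies of `ℝ^N`; and the crosspolytopes
for which the bounds `M N`, `N` and `d` are attained. -/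
theorem result :
    (∀ (d N : ℕ) (K : Set (Fin d → ℝ)), IsCompact K → Convex ℝ K → (interior K).Nonempty →
      LatticeFree K → ∀ (v : Fin N → Fin d → ℝ) (x₀ : Fin d → ℝ) (M : ℝ), 0 ≤ M →
      (∀ x ∈ K, ∃ t : Fin N → ℝ, ∑ j, |t j| ≤ M * N ∧ x = x₀ + ∑ j, t j • v j) →
      ((∀ t : Fin N → ℝ, ∑ j, t j ^ 2 ≤ N → x₀ + ∑ j, t j • v j ∈ K) → WidthLe K (M * N)) ∧
      ∀ p : ℝ, 1 ≤ p → (∀ t : Fin N → ℝ, ∑ j, |t j| ^ p ≤ N → x₀ + ∑ j, t j • v j ∈ K) →
        WidthLe K ((p + 2) * M * N)) ∧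
    (∀ (d N : ℕ) (x₀ : Fin d → ℝ) (w : Fin N → Fin d → ℝ), (interior (SymPoly x₀ w)).Nonempty →
      LatticeFree (SymPoly x₀ w) → WidthLe (SymPoly x₀ w) N) ∧
    (∀ (d : ℕ) (p : ℝ), 1 ≤ p → p ≤ 2 → ∀ (x₀ : Fin d → ℝ) (w : Fin d → Fin d → ℝ),
      (interior (PBall p x₀ w)).Nonempty → LatticeFree (PBall p x₀ w) →
      WidthLe (PBall p x₀ w) d) ∧
    (∀ (d N : ℕ) (r : ℝ), 1 < r → ∀ T : Set (Fin N → ℝ), SolidConvex r T →
      ∀ (x₀ : Fin d → ℝ) (w : Fin N → Fin d → ℝ), (interior (img x₀ w (pol T))).Nonempty →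
      LatticeFree (img x₀ w (pol T)) → WidthLe (img x₀ w (pol T)) ((r / (r - 1) + 2) * N) ∧
        (r = 2 → WidthLe (img x₀ w (pol T)) N)) ∧
    (∀ d : ℕ, 1 ≤ d → ∃ (x₀ : Fin d → ℝ) (w : Fin d → Fin d → ℝ),
      (interior (SymPoly x₀ w)).Nonempty ∧ LatticeFree (SymPoly x₀ w) ∧
      ∀ W : ℝ, WidthLe (SymPoly x₀ w) W → (d : ℝ) ≤ W) := by
  refine ⟨?_, ?_, ?_, ?_, ?_⟩
  · intro d N K _ hconv hint hfree v x₀ M hM hout
    refine ⟨fun hin => ?_, fun p hp hin => ?_⟩
    · exact Pool.Agent.Lib.MP_d2370c_gt.width_le_A K hconv hint hfree v x₀ M hin hout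
    · exact Pool.Agent.Lib.MP_d2370c_gt.width_le_E' p hp K hconv hint hfree v x₀ M hM hin hout
  · intro d N x₀ w hint hfree
    exact Pool.Agent.Lib.MP_d2370c_gt.width_le_symPoly x₀ w hint hfree
  · intro d p hp hp2 x₀ w hint hfree
    exact Pool.Agent.Lib.MP_d2370c_gt.width_le_pBall p hp hp2 x₀ w hint hfree
  · intro d N r hr T hT x₀ w hint hfree
    have hrp : r.HolderConjugate (r / (r - 1)) := Real.HolderConjugate.conjExponent hr
    refine ⟨Pool.Agent.Lib.MP_d2370c_gt.width_le_polR r _ hrp T hT x₀ w hint hfree, ?_⟩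
    rintro rfl
    refine Pool.Agent.Lib.MP_d2370c_gt.width_le_pol T ⟨hT.isCompact, hT.solid, ?_, hT.full⟩ x₀ w
      hint hfree
    intro s hs t ht a b ha hb hab
    have h := hT.mean s hs t ht a b ha hb hab
    have e : (fun j => (a * |s j| ^ (2 : ℝ) + b * |t j| ^ (2 : ℝ)) ^ (1 / (2 : ℝ))) =
        fun j => Real.sqrt (a * s j ^ 2 + b * t j ^ 2) := by
      funext j
      rw [Real.rpow_two, Real.rpow_two, sq_abs, sq_abs, Real.sqrt_eq_rpow]
    rwa [e] at h
  · intro d hd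
    refine ⟨Pool.Agent.Lib.MP_d2370c_gt.ctr d, Pool.Agent.Lib.MP_d2370c_gt.axs d,
      Pool.Agent.Lib.MP_d2370c_gt.sharp_interior_nonempty hd,
      Pool.Agent.Lib.MP_d2370c_gt.sharp_free hd, ?_⟩
    rintro W ⟨y, hy, hW⟩
    obtain ⟨x, hx, x', hx', h⟩ := Pool.Agent.Lib.MP_d2370c_gt.sharp_width hd y hy
    exact h.trans (hW x hx x' hx')

end Pool.Agent.Results.MP_d2370c_gt.CrosspolytopeClass
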