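import Pool.Agent.Lib.MP_d2370c_gt.OS.Star

/-!
Simplices with an obtuse superbase: from every vertex some integer vector points into the simplex,
the sum of these vectors is zero and they generate the integer lattice. The lattice width of a
lattice-free simplex of this kind is less than twice the dimension.
-/

set_option autoImplicit false

namespace Pool.Agent.Results.MP_d2370c_gt.SimplexClass

/-- No integer point lies in the interior of `K`. -/
def LatticeFree {d : ℕ} (K : Set (Fin d → ℝ)) : Prop :=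
  ∀ z : Fin d → ℤ, (fun i => (z i : ℝ)) ∉ interior K

/-- Some nonzero integer direction has width at most `W`: the lattice width is at most `W`. -/
def WidthLe {d : ℕ} (K : Set (Fin d → ℝ)) (W : ℝ) : Prop :=
  ∃ y : Fin d → ℤ, y ≠ 0 ∧ ∀ x ∈ K, ∀ x' ∈ K, ∑ i, (x i - x' i) * (y i : ℝ) ≤ W

/-- For every vertex `v i` of the simplex the integer vector `b i` points from `v i` into the
simplex: it is the combination of the edges `v j - v i` with the coefficients `t i j ≥ 0`. -/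
def Inward {d : ℕ} (v : Fin (d + 1) → Fin d → ℝ) (b : Fin (d + 1) → Fin d → ℤ)
    (t : Fin (d + 1) → Fin (d + 1) → ℝ) : Prop :=
  (∀ i j, 0 ≤ t i j) ∧ (∀ i, t i i = 0) ∧ ∀ i l, (b i l : ℝ) = ∑ j, t i j * (v j l - v i l)

/-- `e` times every integer vector is an integral combination of the `b i`. -/
def Generates {d : ℕ} (e : ℕ) (b : Fin (d + 1) → Fin d → ℤ) : Prop :=
  1 ≤ e ∧ ∀ z : Fin d → ℤ, ∃ m : Fin (d + 1) → ℤ, (e : ℤ) • z = ∑ i, m i • b i

/-- `K` lies between the simplex with vertices `v i` and its image under the dilation with centre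
`x₀` and factor `c`. -/
def Between {d : ℕ} (v : Fin (d + 1) → Fin d → ℝ) (K : Set (Fin d → ℝ)) (x₀ : Fin d → ℝ)
    (c : ℝ) : Prop :=
  convexHull ℝ (Set.range v) ⊆ K ∧ ∀ x ∈ K, ∃ s ∈ convexHull ℝ (Set.range v), x = x₀ + c • (s - x₀)

theorem bounds (d : ℕ) (v : Fin (d + 1) → Fin d → ℝ) (b : Fin (d + 1) → Fin d → ℤ)
    (t : Fin (d + 1) → Fin (d + 1) → ℝ) (hin : Inward v b t) (e : ℕ) (hgen : Generates e b)
    (K : Set (Fin d → ℝ)) (x₀ : Fin d → ℝ) (c : ℝ) (hc : 1 ≤ c) (hK : Between v K x₀ c)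
    (hfree : LatticeFree K) :
    (∑ i, b i = 0 →
      WidthLe K (2 * d ^ 2 / (d + 1) * e * c) ∧
      (∀ θ : ℝ, (∀ r : Fin (d + 1) → ℕ, Function.Injective r →
          ∑ i, ∑ j, (if r i < r j then t i j else 0) ≤ θ * ∑ i, ∑ j, t i j) →
        WidthLe K (2 * θ * d * e * c)) ∧
      ((∀ i j, t i j = t j i) → WidthLe K (d * e * c))) ∧
    (∀ (κ : Fin (d + 1) → ℕ) (N : ℕ), (∀ i, 1 ≤ κ i ∧ κ i ≤ N) → ∑ i, (κ i : ℤ) • b i = 0 →
      WidthLe K (2 * d ^ 2 / (d + 1) * N * e * c)) := by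
  have hc0 : (0 : ℝ) ≤ c := by linarith
  have hgen' : ∀ z : Fin d → ℤ, ∃ m : Fin (d + 1) → ℤ, ∀ l, (e : ℤ) * z l = ∑ i, m i * b i l := by
    intro z
    obtain ⟨m, hm⟩ := hgen.2 z
    refine ⟨m, fun l => ?_⟩
    have := congrFun hm l
    rw [Finset.sum_apply] at this
    simpa using this
  have hsum' : ∀ κ : Fin (d + 1) → ℕ, ∑ i, (κ i : ℤ) • b i = 0 → ∀ l, ∑ i, (κ i : ℤ) * b i l = 0 := by
    intro κ hκ l
    have := congrFun hκ l
    rw [Finset.sum_apply] at this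
    simpa using this
  let D : (κ : Fin (d + 1) → ℕ) → (∀ i, 1 ≤ κ i) → (∑ i, (κ i : ℤ) • b i = 0) →
      Pool.Agent.Lib.MP_d2370c_gt.OS.Dat d := fun κ h1 h2 =>
    { v := v, b := b, t := t, κ := κ, e := e, ht := hin.1, htd := hin.2.1, hb := hin.2.2, hκ := h1,
      hsum := hsum' κ h2, he := hgen.1, hgen := hgen' }
  have hone : ∑ i, b i = 0 → ∑ i : Fin (d + 1), (((fun _ => 1 : Fin (d + 1) → ℕ) i : ℕ) : ℤ) • b i = 0 := by
    intro h
    simpa using h
  have hmult : ∀ (κ : Fin (d + 1) → ℕ) (N : ℕ), (∀ i, 1 ≤ κ i ∧ κ i ≤ N) →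
      ∑ i, (κ i : ℤ) • b i = 0 → WidthLe K (2 * d ^ 2 / (d + 1) * N * e * c) := fun κ N h1 h2 =>
    (D κ (fun i => (h1 i).1) h2).width_mult N (fun i => (h1 i).2) hK.1 hfree hc0 x₀ hK.2
  refine ⟨fun h0 => ?_, hmult⟩
  have htheta : ∀ θ : ℝ, (∀ r : Fin (d + 1) → ℕ, Function.Injective r →
      ∑ i, ∑ j, (if r i < r j then t i j else 0) ≤ θ * ∑ i, ∑ j, t i j) →
      WidthLe K (2 * θ * d * e * c) := fun θ hθ =>
    (D (fun _ => 1) (fun _ => le_rfl) (hone h0)).width_theta (fun _ => rfl) hK.1 hfree hc0 x₀ hK.2 θ hθ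
  refine ⟨?_, htheta, fun hsymm => ?_⟩
  rotate_left
  · have h1 := htheta (1 / 2) (by
      intro r _
      have h2 : ∑ i, ∑ j, (if r i < r j then t i j else 0) = ∑ i, ∑ j, (if r j < r i then t i j else 0) := by
        rw [Finset.sum_comm]
        refine Finset.sum_congr rfl fun i _ => Finset.sum_congr rfl fun j _ => ?_
        rw [hsymm j i]
      have h3 : ∑ i, ∑ j, (if r i < r j then t i j else 0) + ∑ i, ∑ j, (if r j < r i then t i j else 0)
          ≤ ∑ i, ∑ j, t i j := by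
        rw [← Finset.sum_add_distrib]
        refine Finset.sum_le_sum fun i _ => ?_
        rw [← Finset.sum_add_distrib]
        refine Finset.sum_le_sum fun j _ => ?_
        have := hin.1 i j
        split_ifs with h4 h5
        · omega
        · linarith
        · linarith
        · linarith
      linarith)
    have h2 : (2 * (1 / 2) * d * e * c : ℝ) = d * e * c := by ring
    rw [h2] at h1
    exact h1
  · have h1 := hmult (fun _ => 1) 1 (fun _ => ⟨le_rfl, le_rfl⟩) (hone h0)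
    have h2 : (2 * (d : ℝ) ^ 2 / (d + 1) * (1 : ℕ) * e * c : ℝ) = 2 * (d : ℝ) ^ 2 / (d + 1) * e * c := by
      push_cast
      ring
    rw [h2] at h1
    exact h1

theorem gen_of {d : ℕ} (D : Pool.Agent.Lib.MP_d2370c_gt.OS.Dat d) (he : D.e = 1) : Generates 1 D.b := by
  refine ⟨le_rfl, fun z => ?_⟩
  obtain ⟨m, hm⟩ := D.hgen z
  refine ⟨m, ?_⟩
  ext l
  have := hm l
  rw [he] at this
  rw [Finset.sum_apply]
  simpa using this

theorem sum_of {d : ℕ} (D : Pool.Agent.Lib.MP_d2370c_gt.OS.Dat d) (hκ : ∀ i, D.κ i = 1) : ∑ i, D.b i = 0 := by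
  ext l
  have := D.hsum l
  simp only [hκ, Nat.cast_one, one_mul] at this
  rw [Finset.sum_apply]
  simpa using this

/-- (1) Let `K` be lattice-free and between the simplex `conv v` and its dilate with factor `c`, and
let integer vectors `b i` point into the simplex from its vertices, with coefficients `t i j`, and
generate a lattice containing `e ℤ^d`. If the sum of the `b i` is zero, the lattice width of `K` is
at most `2 d ^ 2 / (d + 1) e c`, at most `2 θ d e c`, where `θ` bounds the proportion of the weights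
`t` on the forward pairs of every ordering `r` of the vertices, and at most `d e c` if `t` is
symmetric. In general, if `∑ κ i • b i = 0` with `1 ≤ κ i ≤ N`, it is at most
`2 d ^ 2 / (d + 1) N e c`. (2), (3) For `e = c = 1` and `∑ b i = 0`: some lattice-free simplices of
this kind have lattice width at least `2 d + 3 - 2 √(2 d + 2)`, and some with symmetric `t` have
lattice width at least `d`. -/
theorem result :
    (∀ (d : ℕ) (v : Fin (d + 1) → Fin d → ℝ) (b : Fin (d + 1) → Fin d → ℤ)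
      (t : Fin (d + 1) → Fin (d + 1) → ℝ), Inward v b t → ∀ e : ℕ, Generates e b →
      ∀ (K : Set (Fin d → ℝ)) (x₀ : Fin d → ℝ) (c : ℝ), 1 ≤ c → Between v K x₀ c → LatticeFree K →
      (∑ i, b i = 0 →
        WidthLe K (2 * d ^ 2 / (d + 1) * e * c) ∧
        (∀ θ : ℝ, (∀ r : Fin (d + 1) → ℕ, Function.Injective r →
            ∑ i, ∑ j, (if r i < r j then t i j else 0) ≤ θ * ∑ i, ∑ j, t i j) →
          WidthLe K (2 * θ * d * e * c)) ∧
        ((∀ i j, t i j = t j i) → WidthLe K (d * e * c))) ∧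
      (∀ (κ : Fin (d + 1) → ℕ) (N : ℕ), (∀ i, 1 ≤ κ i ∧ κ i ≤ N) → ∑ i, (κ i : ℤ) • b i = 0 →
        WidthLe K (2 * d ^ 2 / (d + 1) * N * e * c))) ∧
    (∀ d : ℕ, 1 ≤ d → ∃ (v : Fin (d + 1) → Fin d → ℝ) (b : Fin (d + 1) → Fin d → ℤ)
      (t : Fin (d + 1) → Fin (d + 1) → ℝ), Inward v b t ∧ Generates 1 b ∧ ∑ i, b i = 0 ∧
      LatticeFree (convexHull ℝ (Set.range v)) ∧
      ∀ W : ℝ, WidthLe (convexHull ℝ (Set.range v)) W → 2 * (d : ℝ) + 3 - 2 * √(2 * d + 2) ≤ W) ∧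
    (∀ d : ℕ, 1 ≤ d → ∃ (v : Fin (d + 1) → Fin d → ℝ) (b : Fin (d + 1) → Fin d → ℤ)
      (t : Fin (d + 1) → Fin (d + 1) → ℝ), Inward v b t ∧ Generates 1 b ∧ ∑ i, b i = 0 ∧
      (∀ i j, t i j = t j i) ∧ LatticeFree (convexHull ℝ (Set.range v)) ∧
      ∀ W : ℝ, WidthLe (convexHull ℝ (Set.range v)) W → (d : ℝ) ≤ W) := by
  refine ⟨fun d v b t hin e hgen K x₀ c hc hK hfree => bounds d v b t hin e hgen K x₀ c hc hK hfree,
    fun d hd => ?_, fun d hd => ?_⟩
  · obtain ⟨D, hκ, he, hfree, hw⟩ := Pool.Agent.Lib.MP_d2370c_gt.OS.exists_sharp hd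
    refine ⟨D.v, D.b, D.t, ⟨D.ht, D.htd, D.hb⟩, gen_of D he, sum_of D hκ, hfree, fun W hW => ?_⟩
    obtain ⟨y, hy, hyW⟩ := hW
    obtain ⟨i, j, hij⟩ := hw y hy
    exact hij.trans (hyW _ (subset_convexHull ℝ _ ⟨i, rfl⟩) _ (subset_convexHull ℝ _ ⟨j, rfl⟩))
  · obtain ⟨D, hκ, he, hs, hfree, hw⟩ := Pool.Agent.Lib.MP_d2370c_gt.OS.exists_sharp_symm hd
    refine ⟨D.v, D.b, D.t, ⟨D.ht, D.htd, D.hb⟩, gen_of D he, sum_of D hκ, hs, hfree, fun W hW => ?_⟩
    obtain ⟨y, hy, hyW⟩ := hW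
    obtain ⟨i, j, hij⟩ := hw y hy
    exact hij.trans (hyW _ (subset_convexHull ℝ _ ⟨i, rfl⟩) _ (subset_convexHull ℝ _ ⟨j, rfl⟩))

end Pool.Agent.Results.MP_d2370c_gt.SimplexClass
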