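import Mathlib
import Pool.Agent.Lib.MP_d2370c_gt.SQ.Cube
import Pool.Agent.Lib.MP_d2370c_gt.SQ.Ball
import Pool.Agent.Lib.MP_d2370c_gt.SQ.Pol2
import Pool.Agent.Lib.MP_d2370c_gt.SQ.Slab
import Pool.Agent.Lib.MP_d2370c_gt.SY.Core
import Pool.Agent.Lib.MP_d2370c_gt.SY.Scale
import Pool.Agent.Lib.MP_d2370c_gt.SY.Sym
import Pool.Agent.Lib.MP_d2370c_gt.SY.RC

/-!
Linear images of sections of a convex body `T` of `ℝ^N`: the lattice width of a lattice-free convex
body of this kind is at most a constant times `N` if `T` is the unit ball of a norm of `ℝ^N` which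
is invariant under permutations and sign changes, or if `T` or its polar is `r` convex and
unconditional with `r > 1`. Symmetric polytopes with `2 N` facets.
-/

set_option autoImplicit false

namespace Pool.Agent.Results.MP_d2370c_gt.SubquotientClass

open Pool.Agent.Lib.MP_d2370c_gt (SolidConvex pol XX)
open Pool.Agent.Lib.MP_d2370c_gt.SQ (Inj lin)

/-- No integer point lies in the interior of `K`. -/
def LatticeFree {d : ℕ} (K : Set (Fin d → ℝ)) : Prop :=
  ∀ z : Fin d → ℤ, (fun i => (z i : ℝ)) ∉ interior K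

/-- Some nonzero integer direction has width at most `W`: the lattice width is at most `W`. -/
def WidthLe {d : ℕ} (K : Set (Fin d → ℝ)) (W : ℝ) : Prop :=
  ∃ y : Fin d → ℤ, y ≠ 0 ∧ ∀ x ∈ K, ∀ x' ∈ K, ∑ i, (x i - x' i) * (y i : ℝ) ≤ W

/-- `K` lies between `x₀ + C` and `x₀ + M C`. -/
def Between {d : ℕ} (C : Set (Fin d → ℝ)) (x₀ : Fin d → ℝ) (M : ℝ) (K : Set (Fin d → ℝ)) : Prop :=
  (∀ x ∈ C, x₀ + x ∈ K) ∧ ∀ z ∈ K, ∃ x ∈ C, z = x₀ + M • x

/-- The unit ball of a norm of `ℝ^N`, invariant under sign changes and permutations of the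
coordinates. -/
structure Symmetric {N : ℕ} (T : Set (Fin N → ℝ)) : Prop where
  isCompact : IsCompact T
  convex : Convex ℝ T
  signs : ∀ t ∈ T, ∀ e : Fin N → ℝ, (∀ j, e j = 1 ∨ e j = -1) → (fun j => e j * t j) ∈ T
  perms : ∀ t ∈ T, ∀ σ : Equiv.Perm (Fin N), (fun j => t (σ j)) ∈ T
  nonzero : ∃ t ∈ T, t ≠ 0

/-- The linear map with rows `u i` is injective. -/
def RowsInjective {n N : ℕ} (u : Fin N → Fin n → ℝ) : Prop :=
  ∀ x : Fin n → ℝ, (∀ i, ∑ k, u i k * x k = 0) → x = 0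

/-- The image under the linear map with columns `v k` of the preimage of `T` under the linear map
with rows `u i`. -/
def Subq {n N d : ℕ} (u : Fin N → Fin n → ℝ) (v : Fin n → Fin d → ℝ) (T : Set (Fin N → ℝ)) :
    Set (Fin d → ℝ) :=
  {z | ∃ x : Fin n → ℝ, (fun i => ∑ k, u i k * x k) ∈ T ∧ z = ∑ k, x k • v k}

/-- The bound `C M N` for the lattice width of all lattice-free convex bodies between an image of a
section of `T` and its `M`-fold dilate. -/
def LinearWidth (C : ℝ) {N : ℕ} (T : Set (Fin N → ℝ)) : Prop :=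
  ∀ (n d : ℕ) (u : Fin N → Fin n → ℝ) (v : Fin n → Fin d → ℝ), RowsInjective u →
    ∀ (x₀ : Fin d → ℝ) (M : ℝ), 0 ≤ M → ∀ K : Set (Fin d → ℝ), Between (Subq u v T) x₀ M K →
      Convex ℝ K → (interior K).Nonempty → LatticeFree K → WidthLe K (C * M * N)

theorem inj_of {n N : ℕ} {u : Fin N → Fin n → ℝ} (hu : RowsInjective u) : Inj u :=
  fun x hx => hu x fun i => congrFun hx i

theorem XX_eq {n d : ℕ} (x₀ : Fin d → ℝ) (v : Fin n → Fin d → ℝ) (x : Fin n → ℝ) :
    XX x₀ v x = x₀ + ∑ k, x k • v k := by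
  funext i
  simp [XX, Finset.sum_apply]

theorem in_of {n N d : ℕ} {u : Fin N → Fin n → ℝ} {v : Fin n → Fin d → ℝ} {T : Set (Fin N → ℝ)}
    {x₀ : Fin d → ℝ} {M : ℝ} {K : Set (Fin d → ℝ)} (h : Between (Subq u v T) x₀ M K)
    (x : Fin n → ℝ) (hx : lin u x ∈ T) : XX x₀ v x ∈ K := by
  rw [XX_eq]
  exact h.1 _ ⟨x, hx, rfl⟩

theorem out_of {n N d : ℕ} {u : Fin N → Fin n → ℝ} {v : Fin n → Fin d → ℝ} {T : Set (Fin N → ℝ)}
    {x₀ : Fin d → ℝ} {M : ℝ} {K : Set (Fin d → ℝ)} (h : Between (Subq u v T) x₀ M K)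
    (z : Fin d → ℝ) (hz : z ∈ K) :
    ∃ x : Fin n → ℝ, (∃ s ∈ T, lin u x = M • s) ∧ z = XX x₀ v x := by
  obtain ⟨w, ⟨x, hx, rfl⟩, rfl⟩ := h.2 z hz
  refine ⟨M • x, ⟨_, hx, ?_⟩, ?_⟩
  · funext i
    simp only [lin, Pi.smul_apply, smul_eq_mul, Finset.mul_sum]
    exact Finset.sum_congr rfl fun k _ => by ring
  · rw [XX_eq]
    simp [Finset.smul_sum, smul_smul]

/-- The general bound, with a diagonal scaling. -/
theorem linear_of (c D : ℝ) (hc : 0 < c) (hc1 : c ≤ 1) (hD : 1 ≤ D) : ∃ C : ℝ, ∀ (N : ℕ)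
    (T : Set (Fin N → ℝ)), IsCompact T → Convex ℝ T → Pool.Agent.Lib.MP_d2370c_gt.SY.Solid T →
    ∀ δ : Fin N → ℝ, (∀ j, 0 < δ j) → ∀ r : ℕ → ℝ,
    Pool.Agent.Lib.MP_d2370c_gt.SY.Pol1 c D {t : Fin N → ℝ | (fun j => δ j * t j) ∈ T} r →
    LinearWidth C T := by
  obtain ⟨C, -, h⟩ := Pool.Agent.Lib.MP_d2370c_gt.SY.core'_of c D
    (Pool.Agent.Lib.MP_d2370c_gt.SY.core c D hc hc1 hD)
  refine ⟨C, ?_⟩
  intro N T h1 h2 h3 δ hδ r hr n d u v hu x₀ M hM K hB hK hi hf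
  exact h n N d T h1 h2 h3 δ hδ r hr K hK hi hf u (inj_of hu) v x₀ M hM (in_of hB) (out_of hB)

theorem part_symmetric : ∃ C : ℝ, ∀ (N : ℕ) (T : Set (Fin N → ℝ)), Symmetric T → LinearWidth C T := by
  obtain ⟨C, h⟩ := linear_of 1 1 one_pos le_rfl le_rfl
  refine ⟨C, fun N T hT => ?_⟩
  have hsol := Pool.Agent.Lib.MP_d2370c_gt.SY.solid_of_signs hT.convex hT.signs
  obtain ⟨r, hr⟩ := Pool.Agent.Lib.MP_d2370c_gt.SY.pol1_sym hT.isCompact hT.convex hsol hT.perms
    hT.nonzero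
  refine h N T hT.isCompact hT.convex hsol (fun _ => 1) (fun _ => one_pos) r ?_
  have e : {t : Fin N → ℝ | (fun j => (1 : ℝ) * t j) ∈ T} = T := by
    ext t
    simp
  rw [e]
  exact hr

theorem part_convex (r : ℝ) (hr : 1 < r) : ∃ C : ℝ, ∀ (N : ℕ) (T : Set (Fin N → ℝ)),
    SolidConvex r T → LinearWidth C T ∧ LinearWidth C (pol T) := by
  have hr0 : 0 < r := by linarith
  have hc : 0 < 1 - 1 / r := by
    rw [sub_pos, div_lt_one hr0]
    exact hr
  have hc1 : 1 - 1 / r ≤ 1 := by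
    have : 0 < 1 / r := by positivity
    linarith
  obtain ⟨C, h⟩ := linear_of (1 - 1 / r) 1 hc hc1 le_rfl
  refine ⟨C, fun N T hT => ⟨?_, ?_⟩⟩
  · obtain ⟨δ, ρ, hδ, hρ⟩ := Pool.Agent.Lib.MP_d2370c_gt.SY.pol1_rc hr hT
    exact h N T hT.isCompact (hT.convex hr.le) hT.solid δ hδ ρ hρ
  · obtain ⟨δ, ρ, hδ, hρ⟩ := Pool.Agent.Lib.MP_d2370c_gt.SY.pol1_rcp hr hT
    obtain ⟨h1, h2⟩ := Pool.Agent.Lib.MP_d2370c_gt.SY.pol_compact hr.le hT
    exact h N (pol T) h1 (Pool.Agent.Lib.MP_d2370c_gt.convex_pol T) h2 δ hδ ρ hρ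

theorem part_two (N : ℕ) (T : Set (Fin N → ℝ)) (hT : SolidConvex 2 T) : LinearWidth (9 / 4) T := by
  intro n d u v hu' x₀ M hM K hB hK hi hf
  have hu := inj_of hu'
  obtain ⟨D, hD0, hD, hDle⟩ := hT.exists_box one_le_two
  have hlin : ∀ x i, lin (fun i k => u i k / D i) x i = lin u x i / D i := by
    intro x i
    simp only [lin, Finset.sum_div]
    exact Finset.sum_congr rfl fun k _ => by ring
  have hu' : Inj fun i k => u i k / D i := by
    intro x hx
    refine hu x ?_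
    funext i
    have h1 := congrFun hx i
    rw [hlin] at h1
    rw [Pi.zero_apply, div_eq_zero_iff] at h1
    exact h1.resolve_right (hD0 i).ne'
  refine Pool.Agent.Lib.MP_d2370c_gt.SQ.width_le_cubeSec K hK hi hf hu' v x₀ M hM ?_ ?_
  · intro x hx
    refine in_of hB x (hT.solid D hD _ fun i => ?_)
    have h1 := hx i
    rw [hlin, abs_div, div_le_one (abs_pos.2 (hD0 i).ne')] at h1
    exact h1
  · intro z hz
    obtain ⟨x, ⟨s, hs, hx⟩, rfl⟩ := out_of hB z hz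
    refine ⟨x, ?_, rfl⟩
    have h1 := hDle _ hs
    have h2 : ∀ i, lin (fun i k => u i k / D i) x i ^ 2 = M ^ 2 * (|s i| / D i) ^ (2 : ℝ) := by
      intro i
      rw [hlin, hx, Pi.smul_apply, smul_eq_mul, Real.rpow_two, div_pow, div_pow, sq_abs, mul_pow]
      ring
    rw [Finset.sum_congr rfl fun i _ => h2 i, ← Finset.mul_sum]
    exact mul_le_mul_of_nonneg_left h1 (sq_nonneg M)

theorem part_two_pol (N : ℕ) (T : Set (Fin N → ℝ)) (hT : SolidConvex 2 T) :
    LinearWidth (8 / 5) (pol T) := by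
  intro n d u v hu' x₀ M hM K hB hK hi hf
  have hu := inj_of hu'
  obtain ⟨D, hD0, hD, hDle⟩ := hT.exists_box one_le_two
  rcases Nat.eq_zero_or_pos N with hN | hN
  · subst hN
    refine Pool.Agent.Lib.MP_d2370c_gt.SQ.width_le_ballSec K hK hi hf hu v x₀ M hM ?_ ?_
    · intro x _
      exact in_of hB x fun s _ => by simp
    · intro z hz
      obtain ⟨x, -, rfl⟩ := out_of hB z hz
      exact ⟨x, by simp, rfl⟩
  have hN' : (0 : ℝ) < N := by exact_mod_cast hN
  have hND : ∀ i, (N : ℝ) * D i ≠ 0 := fun i => (mul_pos hN' (hD0 i)).ne'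
  have hlin : ∀ x i, lin (fun i k => (N : ℝ) * D i * u i k) x i = N * D i * lin u x i :=
    fun x i => Pool.Agent.Lib.MP_d2370c_gt.SQ.c4c_lin_scale u (fun i => N * D i) x i
  refine Pool.Agent.Lib.MP_d2370c_gt.SQ.width_le_ballSec K hK hi hf
    (Pool.Agent.Lib.MP_d2370c_gt.SQ.c4c_inj_scale hu (fun i => N * D i) hND) v x₀ M hM ?_ ?_
  · intro x hx
    refine in_of hB x ?_
    intro t ht
    simp only [hlin] at hx
    have h1 : (∑ j, (D j * lin u x j) * (t j / D j)) ^ 2 ≤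
        (∑ j, (D j * lin u x j) ^ 2) * ∑ j, (t j / D j) ^ 2 := Finset.sum_mul_sq_le_sq_mul_sq _ _ _
    have h2 : ∑ j, (D j * lin u x j) ^ 2 ≤ 1 / N := by
      have e : ∑ j, (N * D j * lin u x j) ^ 2 = (N : ℝ) ^ 2 * ∑ j, (D j * lin u x j) ^ 2 := by
        rw [Finset.mul_sum]
        exact Finset.sum_congr rfl fun j _ => by ring
      rw [e] at hx
      rw [le_div_iff₀ hN']
      by_contra hcon
      push Not at hcon
      nlinarith
    have h3 : ∑ j, (t j / D j) ^ 2 ≤ N := by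
      refine le_trans (le_of_eq ?_) (hDle t ht)
      refine Finset.sum_congr rfl fun j _ => ?_
      rw [Real.rpow_two, div_pow, div_pow, sq_abs]
    have h4 : (∑ j, (D j * lin u x j) * (t j / D j)) ^ 2 ≤ 1 := by
      calc _ ≤ _ := h1
        _ ≤ (1 / N) * N := mul_le_mul h2 h3 (Finset.sum_nonneg fun _ _ => sq_nonneg _) (by positivity)
        _ = 1 := by field_simp
    have h5 : ∑ j, lin u x j * t j = ∑ j, (D j * lin u x j) * (t j / D j) := by
      refine Finset.sum_congr rfl fun j _ => ?_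
      have := (hD0 j).ne'
      field_simp
    rw [h5]
    have h6 : (∑ j, (D j * lin u x j) * (t j / D j)) ^ 2 ≤ 1 ^ 2 := by simpa using h4
    exact (abs_le_of_sq_le_sq' h6 zero_le_one).2
  · intro z hz
    obtain ⟨x, ⟨s, hs, hx⟩, rfl⟩ := out_of hB z hz
    refine ⟨x, ?_, rfl⟩
    have h1 : (fun j => if 0 ≤ s j then D j else -D j) ∈ T := by
      refine hT.solid D hD _ fun j => ?_
      split_ifs
      · exact le_refl _
      · rw [abs_neg]
    have h2 := hs _ h1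
    have h3 : ∑ j, s j * (if 0 ≤ s j then D j else -D j) = ∑ j, D j * |s j| := by
      refine Finset.sum_congr rfl fun j _ => ?_
      split_ifs with h
      · rw [abs_of_nonneg h]; ring
      · rw [abs_of_neg (not_le.mp h)]; ring
    rw [h3] at h2
    have h4 : ∑ j, |lin (fun i k => (N : ℝ) * D i * u i k) x j| = M * N * ∑ j, D j * |s j| := by
      rw [Finset.mul_sum]
      refine Finset.sum_congr rfl fun j _ => ?_
      rw [hlin, hx, Pi.smul_apply, smul_eq_mul, abs_mul, abs_mul, abs_mul, abs_of_pos hN',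
        abs_of_pos (hD0 j), abs_of_nonneg hM]
      ring
    rw [h4]
    have h5 : 0 ≤ M * N := by positivity
    calc M * N * ∑ j, D j * |s j| ≤ M * N * 1 := mul_le_mul_of_nonneg_left h2 h5
      _ = M * N := mul_one _

/-- The bound `C M N` for symmetric bodies, for `r`-convex unconditional bodies and their polars,
with explicit constants for `r = 2`, and the bound `9 / 4 * N` for symmetric polytopes with at most
`2 N` facets. -/
theorem result :
    (∃ C : ℝ, ∀ (N : ℕ) (T : Set (Fin N → ℝ)), Symmetric T → LinearWidth C T) ∧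
    (∀ r : ℝ, 1 < r → ∃ C : ℝ, ∀ (N : ℕ) (T : Set (Fin N → ℝ)), SolidConvex r T →
      LinearWidth C T ∧ LinearWidth C (pol T)) ∧
    (∀ (N : ℕ) (T : Set (Fin N → ℝ)), SolidConvex 2 T →
      LinearWidth (9 / 4) T ∧ LinearWidth (8 / 5) (pol T)) ∧
    (∀ (d N : ℕ) (u : Fin N → Fin d → ℝ) (x₀ : Fin d → ℝ) (K : Set (Fin d → ℝ)),
      K = {z | ∀ i, |∑ k, u i k * (z k - x₀ k)| ≤ 1} → Bornology.IsBounded K → LatticeFree K →
      WidthLe K (9 / 4 * N)) := by
  refine ⟨part_symmetric, part_convex, fun N T hT => ⟨part_two N T hT, part_two_pol N T hT⟩, ?_⟩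
  rintro d N u x₀ K rfl hb hf
  exact Pool.Agent.Lib.MP_d2370c_gt.SQ.width_slab u x₀ hb hf

end Pool.Agent.Results.MP_d2370c_gt.SubquotientClass
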