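import Mathlib
import Pool.Agent.Lib.MP_d2370c_gt.SharpA
import Pool.Agent.Lib.MP_d2370c_gt.ZN.MeasP
import Pool.Agent.Lib.MP_d2370c_gt.ZN.MeasZ

/-!
Zonoids (limits of zonotopes), unit balls of subspaces of `L₁`, images of 2-convex unconditional
bodies of any dimension and polars of such images: the lattice width of a lattice-free convex body
of this kind in `ℝ^d` is at most `d`.
-/

set_option autoImplicit false

open MeasureTheory

namespace Pool.Agent.Results.MP_d2370c_gt.ZonoidClass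

open Pool.Agent.Lib.MP_d2370c_gt (SolidConvex)

/-- No integer point lies in the interior of `K`. -/
def LatticeFree {d : ℕ} (K : Set (Fin d → ℝ)) : Prop :=
  ∀ z : Fin d → ℤ, (fun i => (z i : ℝ)) ∉ interior K

/-- Some nonzero integer direction has width at most `W`: the lattice width is at most `W`. -/
def WidthLe {d : ℕ} (K : Set (Fin d → ℝ)) (W : ℝ) : Prop :=
  ∃ y : Fin d → ℤ, y ≠ 0 ∧ ∀ x ∈ K, ∀ x' ∈ K, ∑ i, (x i - x' i) * (y i : ℝ) ≤ W

/-- `K` lies between `x₀ + C` and `x₀ + M C`. -/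
def Between {d : ℕ} (C : Set (Fin d → ℝ)) (x₀ : Fin d → ℝ) (M : ℝ) (K : Set (Fin d → ℝ)) : Prop :=
  (∀ x ∈ C, x₀ + x ∈ K) ∧ ∀ z ∈ K, ∃ x ∈ C, z = x₀ + M • x

/-- The mean of `|⟨w, y⟩|` over `w` with respect to `μ`. -/
noncomputable def absMean {d : ℕ} (μ : Measure (Fin d → ℝ)) (y : Fin d → ℝ) : ℝ :=
  ∫ w : Fin d → ℝ, |∑ k, w k * y k| ∂μ

/-- The zonoid with support function `absMean μ`. -/
def Zonoid {d : ℕ} (μ : Measure (Fin d → ℝ)) : Set (Fin d → ℝ) :=
  {x | ∀ y : Fin d → ℝ, ∑ k, x k * y k ≤ absMean μ y}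

/-- The polar of this zonoid, unit ball of the norm `absMean μ`. -/
def PolarZonoid {d : ℕ} (μ : Measure (Fin d → ℝ)) : Set (Fin d → ℝ) := {x | absMean μ x ≤ 1}

/-- The image of `T` under the linear map with columns `w j`. -/
def Image {d N : ℕ} (w : Fin N → Fin d → ℝ) (T : Set (Fin N → ℝ)) : Set (Fin d → ℝ) :=
  {x | ∃ t ∈ T, x = ∑ j, t j • w j}

/-- The polar of this image: all `x` with `∑ j, t j * ⟨w j, x⟩ ≤ 1` for `t ∈ T`. -/
def PolarImage {d N : ℕ} (w : Fin N → Fin d → ℝ) (T : Set (Fin N → ℝ)) : Set (Fin d → ℝ) :=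
  {x | ∀ t ∈ T, ∑ j, t j * ∑ k, w j k * x k ≤ 1}

theorem absMean_smul {d : ℕ} (μ : Measure (Fin d → ℝ)) (M : ℝ) (hM : 0 ≤ M) (y : Fin d → ℝ) :
    absMean μ (M • y) = M * absMean μ y := by
  rw [absMean, absMean, ← integral_const_mul]
  refine integral_congr_ae (Filter.Eventually.of_forall fun w => ?_)
  show |∑ k, w k * (M • y) k| = M * |∑ k, w k * y k|
  rw [← abs_of_nonneg hM, ← abs_mul, abs_of_nonneg hM, Finset.mul_sum]
  congr 1
  refine Finset.sum_congr rfl fun k _ => ?_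
  simp only [Pi.smul_apply, smul_eq_mul]
  ring

theorem part_zonoid (d : ℕ) (μ : Measure (Fin d → ℝ)) (hμ : Integrable (fun w : Fin d → ℝ => w) μ)
    (x₀ : Fin d → ℝ) (M : ℝ) (hM : 0 ≤ M) (K : Set (Fin d → ℝ)) (hB : Between (Zonoid μ) x₀ M K)
    (hK : IsCompact K) (hc : Convex ℝ K) (hi : (interior K).Nonempty) (hf : LatticeFree K) :
    WidthLe K (M * d) := by
  refine Pool.Agent.Lib.MP_d2370c_gt.ZN.width_zonoid_meas K hK hc hi hf μ hμ x₀ M hM
    (fun x hx => hB.1 x hx) ?_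
  intro x hx y
  obtain ⟨x', hx', e⟩ := hB.2 _ hx
  have e1 : x = M • x' := add_left_cancel e
  have e2 : ∑ k, x k * y k = M * ∑ k, x' k * y k := by
    rw [e1, Finset.mul_sum]
    refine Finset.sum_congr rfl fun k _ => ?_
    simp only [Pi.smul_apply, smul_eq_mul]
    ring
  rw [e2]
  exact mul_le_mul_of_nonneg_left (hx' y) hM

theorem part_polar (d : ℕ) (μ : Measure (Fin d → ℝ)) (hμ : Integrable (fun w : Fin d → ℝ => w) μ)
    (x₀ : Fin d → ℝ) (M : ℝ) (hM : 0 ≤ M) (K : Set (Fin d → ℝ)) (hB : Between (PolarZonoid μ) x₀ M K)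
    (hK : IsCompact K) (hc : Convex ℝ K) (hi : (interior K).Nonempty) (hf : LatticeFree K) :
    WidthLe K (M * d) := by
  refine Pool.Agent.Lib.MP_d2370c_gt.ZN.width_polar_meas K hK hc hi hf μ hμ x₀ M hM
    (fun x hx => hB.1 x hx) ?_
  intro x hx
  obtain ⟨x', hx', e⟩ := hB.2 _ hx
  have e1 : x = M • x' := add_left_cancel e
  have e2 := absMean_smul μ M hM x'
  rw [← e1] at e2
  have e3 : absMean μ x ≤ M := by
    rw [e2]
    exact mul_le_of_le_one_right hM hx'
  exact e3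

theorem part_image (d N : ℕ) (T : Set (Fin N → ℝ)) (hT : SolidConvex 2 T) (w : Fin N → Fin d → ℝ)
    (x₀ : Fin d → ℝ) (M : ℝ) (hM : 0 ≤ M) (K : Set (Fin d → ℝ)) (hB : Between (Image w T) x₀ M K)
    (hc : Convex ℝ K) (hi : (interior K).Nonempty) (hf : LatticeFree K) :
    WidthLe K (M * d) := by
  refine Pool.Agent.Lib.MP_d2370c_gt.ZN.width_quot T hT K hc hi hf w x₀ M hM ?_ ?_
  · intro t ht
    have h := hB.1 _ ⟨t, ht, rfl⟩
    convert h using 1
    funext i
    simp [Pool.Agent.Lib.MP_d2370c_gt.XX, Finset.sum_apply]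
  · intro z hz
    obtain ⟨x, ⟨t, ht, rfl⟩, rfl⟩ := hB.2 z hz
    refine ⟨t, ht, ?_⟩
    funext i
    simp [Pool.Agent.Lib.MP_d2370c_gt.XX, Finset.sum_apply, Finset.mul_sum, mul_assoc]

theorem part_polarImage (d N : ℕ) (T : Set (Fin N → ℝ)) (hT : SolidConvex 2 T)
    (w : Fin N → Fin d → ℝ) (x₀ : Fin d → ℝ) (M : ℝ) (hM : 0 ≤ M) (K : Set (Fin d → ℝ))
    (hB : Between (PolarImage w T) x₀ M K) (hK : IsCompact K) (hc : Convex ℝ K)
    (hi : (interior K).Nonempty) (hf : LatticeFree K) : WidthLe K (M * d) := by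
  have hXX : ∀ x : Fin d → ℝ, Pool.Agent.Lib.MP_d2370c_gt.XX x₀
      (fun k i : Fin d => if k = i then (1 : ℝ) else 0) x = x₀ + x := by
    intro x
    funext i
    simp [Pool.Agent.Lib.MP_d2370c_gt.XX]
  refine Pool.Agent.Lib.MP_d2370c_gt.ZN.width_sect T hT K hc hi hf w ?_
    (fun k i : Fin d => if k = i then (1 : ℝ) else 0) x₀ M hM ?_ ?_
  · intro x hx
    by_contra hne
    obtain ⟨R, hR⟩ := hK.isBounded.exists_norm_le
    have hx0 : 0 < ‖x‖ := norm_pos_iff.2 hne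
    have hmem : ∀ c : ℝ, x₀ + c • x ∈ K := by
      intro c
      refine hB.1 _ ?_
      intro t _
      have : ∀ j, ∑ k, w j k * (c • x) k = 0 := by
        intro j
        have : ∑ k, w j k * (c • x) k = c * ∑ k, w j k * x k := by
          rw [Finset.mul_sum]
          refine Finset.sum_congr rfl fun k _ => ?_
          simp only [Pi.smul_apply, smul_eq_mul]
          ring
        rw [this, hx j, mul_zero]
      have h0 : ∑ j, t j * ∑ k, w j k * (c • x) k = 0 :=
        Finset.sum_eq_zero fun j _ => by rw [this j, mul_zero]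
      rw [h0]
      exact zero_le_one
    have h1 := hR _ (hmem ((R + ‖x₀‖ + 1) / ‖x‖))
    have h0 := hR _ (hmem 0)
    have hR0 : 0 ≤ R := (norm_nonneg _).trans h0
    have h2 : ‖((R + ‖x₀‖ + 1) / ‖x‖) • x‖ = R + ‖x₀‖ + 1 := by
      rw [norm_smul, Real.norm_eq_abs, abs_of_nonneg (by positivity)]
      field_simp
    have h3 : ‖((R + ‖x₀‖ + 1) / ‖x‖) • x‖ ≤ ‖x₀ + ((R + ‖x₀‖ + 1) / ‖x‖) • x‖ + ‖x₀‖ := by
      have := norm_sub_le (x₀ + ((R + ‖x₀‖ + 1) / ‖x‖) • x) x₀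
      simpa using this
    linarith
  · intro x hx
    rw [hXX]
    refine hB.1 _ ?_
    intro t ht
    have := hx t ht
    simpa [Pool.Agent.Lib.MP_d2370c_gt.ZN.ana, mul_comm] using this
  · intro z hz
    obtain ⟨x, hx, rfl⟩ := hB.2 z hz
    refine ⟨M • x, ?_, (hXX _).symm⟩
    intro t ht
    have e : ∑ j, t j * Pool.Agent.Lib.MP_d2370c_gt.ZN.ana w (M • x) j =
        M * ∑ j, t j * ∑ k, w j k * x k := by
      rw [Finset.mul_sum]
      refine Finset.sum_congr rfl fun j _ => ?_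
      simp only [Pool.Agent.Lib.MP_d2370c_gt.ZN.ana, Pi.smul_apply, smul_eq_mul, Finset.mul_sum]
      refine Finset.sum_congr rfl fun k _ => ?_
      ring
    rw [e]
    exact mul_le_of_le_one_right hM (hx t ht)

/-- The measure of the crosspolytope. -/
noncomputable def crossMeasure (d : ℕ) : Measure (Fin d → ℝ) :=
  Measure.sum fun k : Fin d => Measure.dirac (Pi.single k (2 / (d : ℝ)))

theorem integrable_cross (d : ℕ) : Integrable (fun w : Fin d → ℝ => w) (crossMeasure d) := by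
  rw [crossMeasure, Measure.sum_fintype, integrable_finsetSum_measure]
  intro k _
  exact integrable_dirac (by finiteness)

theorem absMean_cross (d : ℕ) (hd : 1 ≤ d) (y : Fin d → ℝ) :
    absMean (crossMeasure d) y = 2 / d * ∑ k, |y k| := by
  have hd' : (0 : ℝ) < d := by exact_mod_cast hd
  rw [absMean, crossMeasure, Measure.sum_fintype, integral_finsetSum_measure]
  · rw [Finset.mul_sum]
    refine Finset.sum_congr rfl fun k _ => ?_
    rw [integral_dirac, Finset.sum_eq_single k]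
    · rw [Pi.single_eq_same, abs_mul, abs_of_pos (by positivity)]
    · intro b _ hb
      rw [Pi.single_eq_of_ne hb, zero_mul]
    · simp
  · intro k _
    exact integrable_dirac (by finiteness)

theorem part_sharp (d : ℕ) (hd : 1 ≤ d) : ∃ (μ : Measure (Fin d → ℝ)) (x₀ : Fin d → ℝ)
    (K : Set (Fin d → ℝ)), Integrable (fun w : Fin d → ℝ => w) μ ∧ Between (PolarZonoid μ) x₀ 1 K ∧
      IsCompact K ∧ Convex ℝ K ∧ (interior K).Nonempty ∧ LatticeFree K ∧
      ∀ W : ℝ, WidthLe K W → (d : ℝ) ≤ W := by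
  have hd' : (0 : ℝ) < d := by exact_mod_cast hd
  have key : ∀ x : Fin d → ℝ, absMean (crossMeasure d) x ≤ 1 ↔ ∑ k, |x k| ≤ (d : ℝ) / 2 := by
    intro x
    rw [absMean_cross d hd]
    constructor
    · intro h
      have := mul_le_mul_of_nonneg_left h hd'.le
      have e : (d : ℝ) * (2 / d * ∑ k, |x k|) = 2 * ∑ k, |x k| := by field_simp
      rw [e] at this
      linarith
    · intro h
      have := mul_le_mul_of_nonneg_left h (by positivity : 0 ≤ 2 / (d : ℝ))
      have e : 2 / (d : ℝ) * ((d : ℝ) / 2) = 1 := by field_simp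
      rwa [e] at this
  refine ⟨crossMeasure d, Pool.Agent.Lib.MP_d2370c_gt.ctr d,
    Pool.Agent.Lib.MP_d2370c_gt.symPoly (Pool.Agent.Lib.MP_d2370c_gt.ctr d)
      (Pool.Agent.Lib.MP_d2370c_gt.axs d), integrable_cross d, ⟨?_, ?_⟩, ?_, ?_,
    Pool.Agent.Lib.MP_d2370c_gt.sharp_interior_nonempty hd, Pool.Agent.Lib.MP_d2370c_gt.sharp_free hd,
    ?_⟩
  · intro x hx
    rw [Pool.Agent.Lib.MP_d2370c_gt.symPoly_sharp_eq hd]
    have h1 := (key x).1 hx
    simpa [Pool.Agent.Lib.MP_d2370c_gt.ctr] using h1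
  · intro z hz
    rw [Pool.Agent.Lib.MP_d2370c_gt.symPoly_sharp_eq hd] at hz
    refine ⟨z - Pool.Agent.Lib.MP_d2370c_gt.ctr d, (key _).2 ?_, by simp⟩
    simpa [Pool.Agent.Lib.MP_d2370c_gt.ctr] using hz
  · rw [Pool.Agent.Lib.MP_d2370c_gt.symPoly_sharp_eq hd]
    refine Metric.isCompact_of_isClosed_isBounded
      (isClosed_le Pool.Agent.Lib.MP_d2370c_gt.continuous_l1 continuous_const) ?_
    refine (Metric.isBounded_closedBall (x := (Pool.Agent.Lib.MP_d2370c_gt.ctr d))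
      (r := (d : ℝ) / 2)).subset ?_
    intro x hx
    rw [mem_closedBall_iff_norm, pi_norm_le_iff_of_nonneg (by positivity)]
    intro i
    have h1 : |x i - 1 / 2| ≤ ∑ i, |x i - 1 / 2| :=
      Finset.single_le_sum (f := fun i => |x i - 1 / 2|) (fun j _ => abs_nonneg _) (Finset.mem_univ i)
    exact h1.trans hx
  · exact convex_convexHull ℝ _
  · rintro W ⟨y, hy, hW⟩
    obtain ⟨x, hx, x', hx', h⟩ := Pool.Agent.Lib.MP_d2370c_gt.sharp_width hd y hy
    exact h.trans (hW x hx x' hx')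

/-- The bound `M d` for convex bodies between a zonoid, the polar of a zonoid, the image in `ℝ^d`
of a 2-convex unconditional body of `ℝ^N` (`N` arbitrary) or the polar of such an image, and its
`M`-fold dilate; and polars of zonoids for which the bound `d` is attained. -/
theorem result :
    (∀ (d : ℕ) (μ : Measure (Fin d → ℝ)), Integrable (fun w : Fin d → ℝ => w) μ →
      ∀ C : Set (Fin d → ℝ), C = Zonoid μ ∨ C = PolarZonoid μ → ∀ (x₀ : Fin d → ℝ) (M : ℝ), 0 ≤ M →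
      ∀ K : Set (Fin d → ℝ), Between C x₀ M K → IsCompact K → Convex ℝ K → (interior K).Nonempty →
      LatticeFree K → WidthLe K (M * d)) ∧
    (∀ (d N : ℕ) (T : Set (Fin N → ℝ)), SolidConvex 2 T → ∀ (w : Fin N → Fin d → ℝ)
      (C : Set (Fin d → ℝ)), C = Image w T ∨ C = PolarImage w T → ∀ (x₀ : Fin d → ℝ) (M : ℝ), 0 ≤ M →
      ∀ K : Set (Fin d → ℝ), Between C x₀ M K → IsCompact K → Convex ℝ K → (interior K).Nonempty →
      LatticeFree K → WidthLe K (M * d)) ∧
    (∀ d : ℕ, 1 ≤ d → ∃ (μ : Measure (Fin d → ℝ)) (x₀ : Fin d → ℝ) (K : Set (Fin d → ℝ)),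
      Integrable (fun w : Fin d → ℝ => w) μ ∧ Between (PolarZonoid μ) x₀ 1 K ∧ IsCompact K ∧
      Convex ℝ K ∧ (interior K).Nonempty ∧ LatticeFree K ∧ ∀ W : ℝ, WidthLe K W → (d : ℝ) ≤ W) := by
  refine ⟨?_, ?_, part_sharp⟩
  · rintro d μ hμ C (rfl | rfl) x₀ M hM K hB hK hc hi hf
    · exact part_zonoid d μ hμ x₀ M hM K hB hK hc hi hf
    · exact part_polar d μ hμ x₀ M hM K hB hK hc hi hf
  · rintro d N T hT w C (rfl | rfl) x₀ M hM K hB hK hc hi hf
    · exact part_image d N T hT w x₀ M hM K hB hc hi hf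
    · exact part_polarImage d N T hT w x₀ M hM K hB hK hc hi hf

end Pool.Agent.Results.MP_d2370c_gt.ZonoidClass
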